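import Mathlib
import Pool.Agent.N290.RJ.All
import Pool.Agent.N290.RJ.Reg

/-!
# Corona pairs on the unit ball of `ℂⁿ`: solutions dominated by the area integral of the data

Partial answer to Q1 of MP_ca0fc2_an (the corona problem for strictly pseudoconvex domains), for the
unit ball `B` of `ℂⁿ`, `n ≥ 2`, and *all* corona data `f, g` (two generators): there are holomorphic
solutions `h, k` of `f h + g k = 1` with the pointwise bound
`|h(z)|, |k(z)| ≤ C(n, δ) (1 + ∫_B a (a + b)(w) K(z, w) dV(w))`,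
`K(z,w) = |1 - ⟨z,w⟩|^(n-2) Δ(z,w)^(-(2n-1)/2)`, `Δ(z,w) = |1 - ⟨z,w⟩|² - (1 - |z|²)(1 - |w|²)`, where
`a` and `b` are the radially regularised invariant gradients of `f` and `g`,
`a(z) = sup { ((1 - |z|) / (1 - t |z|))^(1/8) |∇f(tz)|_inv : 0 ≤ t ≤ 1 }`.
The bound is quadratic in the gradients, as in Wolff's form of the corona theorem in one variable
and in the area integral of Lusin. Since `|∇f|_inv ≤ 1` by the Schwarz-Pick lemma, the bound is
`O(log (2 / (1 - |z|)))` for all data; the solutions are bounded if the area integral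
`sup_z ∫_B a (a + b) K(z, ·) dV` is finite, for instance if `a(z) ≤ ω (1 - |z|)` and
`b(z) ≤ ω (1 - |z|)` with `∫₀¹ ω(t)² dt / t < ∞`.

The idea. The smooth solution `h₀ = (conj f / |F|², conj g / |F|²)` reduces the problem to
`∂̄v = κ`, where `κ = P ∂̄(conj f)` on the ball (after a choice of the smooth solution), `P` smooth and
bounded, `|∇P|_inv ≤ C (a + b)`. The form `κ` has size `a`, not integrable against `K`. The
*nonlinear* recursion (of Riccati type) over the dyadic radii `t_k`,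
`v_{k+1} = (v_k + Q_k) / (1 + conj(Q_k) v_k / A²)`,
`Q_k(z) = P(t_{k+1} z) conj(f(t_{k+1} z) - f(t_k z))`,
keeps `v_k` in the disc of radius `A` whatever the number of steps, and its limit is a bounded smooth
function `v` with `∂̄v = κ + O(a (a + b))`. The remaining error is removed with the Bergman projection
of the ball, for which `|γ - Pγ|(z) ≤ C ∫_B |∂̄γ|_inv(w) K(z,w) dV(w)`.

Authors: helper290 (statements, recursion, assembly) and helpers 353 27 498 717 297 271 286 134 136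
568 438 7 755 704 897 622 394 787 678 247 and, for the two-dimensional version, 878 849 545 507 935
767 123 887 738 395 255 614 31 281 2 457 695.
-/

set_option autoImplicit false

namespace Pool.Agent.N290.Old.AreaIntegralBound

open MeasureTheory Set Filter Topology
open scoped ENNReal

/-- The unit ball of `ℂ^n`. -/
def unitBall (n : ℕ) : Set (Fin n → ℂ) := {z | ∑ i, ‖z i‖ ^ 2 < 1}

/-- The euclidean norm on `ℂ^n`. -/
noncomputable def nrm {n : ℕ} (z : Fin n → ℂ) : ℝ := Real.sqrt (∑ i, ‖z i‖ ^ 2)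

/-- The hermitian product `⟨z, w⟩` on `ℂ^n`. -/
noncomputable def herm {n : ℕ} (z w : Fin n → ℂ) : ℂ := ∑ i, z i * starRingEnd ℂ (w i)

/-- The length of the vector `ξ` at the point `z` of the ball in the Bergman metric
(normalised to be the euclidean length at `z = 0`). -/
noncomputable def length {n : ℕ} (z ξ : Fin n → ℂ) : ℝ :=
  Real.sqrt (nrm ξ ^ 2 / (1 - nrm z ^ 2) + ‖herm ξ z‖ ^ 2 / (1 - nrm z ^ 2) ^ 2)

/-- The kernel `|1 - ⟨z,w⟩|^(n-2) / (|1 - ⟨z,w⟩|² - (1 - |z|²) (1 - |w|²))^((2n-1)/2)`. -/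
noncomputable def kernel {n : ℕ} (z w : Fin n → ℂ) : ℝ :=
  ‖1 - herm z w‖ ^ (n - 2) /
    Real.sqrt (‖1 - herm z w‖ ^ 2 - (1 - nrm z ^ 2) * (1 - nrm w ^ 2)) ^ (2 * n - 1)

/-- `f` is holomorphic on the ball and bounded by `1`. -/
def IsUnitHol {n : ℕ} (f : (Fin n → ℂ) → ℂ) : Prop :=
  DifferentiableOn ℂ f (unitBall n) ∧ ∀ z ∈ unitBall n, ‖f z‖ ≤ 1

/-- The norm of `f'(z)` in the Bergman metric: the supremum of `|f'(z) ξ| / (length of ξ at z)`. -/
noncomputable def invGradient {n : ℕ} (f : (Fin n → ℂ) → ℂ) (z : Fin n → ℂ) : ℝ :=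
  ⨆ ξ : Fin n → ℂ, ‖fderiv ℂ f z ξ‖ / length z ξ

/-- The radial regularisation of the invariant gradient: the supremum over `0 ≤ t ≤ 1` of
`((1 - |z|) / (1 - t |z|))^(1/8)` times the norm of `f'(t z)` in the Bergman metric. -/
noncomputable def radialMax {n : ℕ} (f : (Fin n → ℂ) → ℂ) (z : Fin n → ℂ) : ℝ :=
  ⨆ t : Icc (0 : ℝ) 1, ((1 - nrm z) / (1 - t * nrm z)) ^ (1 / 8 : ℝ) *
    invGradient f ((t : ℝ) • z)

/-- The area integral `∫_B a (a + b)(w) K(z, w) dV(w)`, `a` and `b` the radial regularisations of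
the invariant gradients of `f` and `g`. -/
noncomputable def areaIntegral {n : ℕ} (f g : (Fin n → ℂ) → ℂ) (z : Fin n → ℂ) : ℝ≥0∞ :=
  ∫⁻ w in unitBall n,
    ENNReal.ofReal (radialMax f w * (radialMax f w + radialMax g w) * kernel z w)

/-- The regularisations correspond under the linear change of variables `T`. -/
theorem rm_T {d : ℕ} {T : Pool.Agent.N290.RJ.E d ≃L[ℂ] (Fin (d + 1) → ℂ)}
    (h0 : ∀ z : Pool.Agent.N290.RJ.E d, T z 0 = z.1)
    (h1 : ∀ (z : Pool.Agent.N290.RJ.E d) (i : Fin d), T z i.succ = z.2 i)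
    {f : (Fin (d + 1) → ℂ) → ℂ} (hf : DifferentiableOn ℂ f (unitBall (d + 1)))
    {z : Pool.Agent.N290.RJ.E d} (hz : z ∈ Pool.Agent.N290.RJ.B d) :
    Pool.Agent.N290.RJ.rm (fun w => f (T w)) z = radialMax f (T z) := by
  unfold Pool.Agent.N290.RJ.rm radialMax
  refine iSup_congr fun t => ?_
  have h2 : T ((t : ℝ) • z) = (t : ℝ) • T z := by
    have h7 : (t : ℝ) • z = ((t : ℝ) : ℂ) • z := by ext <;> simp
    rw [h7, map_smul]
    ext i
    simp
  have h3 : (Pool.Agent.N290.RJ.wt t z) =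
      ((1 - nrm (T z)) / (1 - t * nrm (T z))) ^ (1 / 8 : ℝ) := by
    have h4 : nrm (T z) = Pool.Agent.N290.RJ.nm z := Pool.Agent.N290.RJ.Tr.nm_T h0 h1 z
    rw [h4]
    rfl
  rw [h3, ← h2]
  congr 1
  unfold Pool.Agent.N290.RJ.ig invGradient
  refine T.toLinearEquiv.toEquiv.iSup_congr fun ξ => ?_
  have hz' := Pool.Agent.N290.RJ.smul_mem_B hz t.2.1 t.2.2
  have h5 : fderiv ℂ (fun w => f (T w)) ((t : ℝ) • z) ξ = fderiv ℂ f (T ((t : ℝ) • z)) (T ξ) :=
    Pool.Agent.N290.RJ.Tr.fd_T h0 h1 hf hz' ξ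
  have h6 : length (T ((t : ℝ) • z)) (T ξ) = Pool.Agent.N290.RJ.len ((t : ℝ) • z) ξ :=
    Pool.Agent.N290.RJ.Tr.len_T h0 h1 _ _
  show ‖fderiv ℂ f (T ((t : ℝ) • z)) (T ξ)‖ / length (T ((t : ℝ) • z)) (T ξ) = _
  rw [h5, h6]

/-- **Every corona pair on the ball of `ℂ^n`, `n ≥ 2`, has solutions dominated pointwise by the
regularised area integral of the data.** -/
theorem result (n : ℕ) (hn : 2 ≤ n) (δ : ℝ) (hδ : 0 < δ) :
    ∃ C : ℝ, 0 < C ∧ ∀ f g : (Fin n → ℂ) → ℂ, IsUnitHol f → IsUnitHol g →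
      (∀ z ∈ unitBall n, δ ≤ ‖f z‖ + ‖g z‖) →
      ∃ h k : (Fin n → ℂ) → ℂ, DifferentiableOn ℂ h (unitBall n) ∧
        DifferentiableOn ℂ k (unitBall n) ∧ ∀ z ∈ unitBall n,
        f z * h z + g z * k z = 1 ∧
        ENNReal.ofReal ‖h z‖ ≤ ENNReal.ofReal C * (1 + areaIntegral f g z) ∧
        ENNReal.ofReal ‖k z‖ ≤ ENNReal.ofReal C * (1 + areaIntegral f g z) := by
  obtain ⟨d, rfl⟩ : ∃ d, n = d + 1 := ⟨n - 1, by omega⟩
  have hd : 1 ≤ d := by omega
  obtain ⟨T, h0, h1, hT⟩ := Pool.Agent.N247.RJ.T1 d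
  have hmem := Pool.Agent.N290.RJ.Tr.mem_T h0 h1
  have hmem' := Pool.Agent.N290.RJ.Tr.mem_T' h0 h1
  obtain ⟨C, hC, H⟩ := Pool.Agent.N290.RJ.pair_of (fun δ K hδ => Pool.Agent.N290.RJ.main_of
    (Pool.Agent.N290.RJ.a_Cmain d) (Pool.Agent.N290.RJ.a_Smain d)
    (Pool.Agent.N290.RJ.C8p.C8_proof d) (Pool.Agent.N897.RJ.D2 d)
    (Pool.Agent.N622.RJ.D1_of d (Pool.Agent.N290.RJ.a_LOC d)) (Pool.Agent.N787.RJ.D4 d)
    (Pool.Agent.N290.RJ.a_SP d) δ K hδ) (Pool.Agent.N290.RJ.a_SP d) δ hδ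
  refine ⟨C, hC, fun f g hf hg hδfg => ?_⟩
  have h8 := Pool.Agent.N290.RJ.Tr.twoT h0 h1 (f := f) (g := g) (A := fun z =>
      ENNReal.ofReal C * (1 + ∫⁻ w in Pool.Agent.N290.RJ.B d, ENNReal.ofReal
        (Pool.Agent.N290.RJ.rm (fun w => f (T w)) w * (Pool.Agent.N290.RJ.rm (fun w => f (T w)) w +
          Pool.Agent.N290.RJ.rm (fun w => g (T w)) w) * Pool.Agent.N290.RJ.ker z w)))
    (H (fun z => f (T z)) (fun z => g (T z)) (Pool.Agent.N290.RJ.Tr.hol_T h0 h1 hf.1)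
      (Pool.Agent.N290.RJ.Tr.hol_T h0 h1 hg.1) (fun z hz => hf.2 _ ((hmem z).2 hz))
      (fun z hz => hg.2 _ ((hmem z).2 hz)) (fun z hz => hδfg _ ((hmem z).2 hz)))
  obtain ⟨h, k, hh, hk, hhk⟩ := h8
  refine ⟨h, k, hh, hk, fun z hz => ?_⟩
  have h9 := hhk z hz
  have hzB : T.symm z ∈ Pool.Agent.N290.RJ.B d := (hmem' z).2 hz
  have h10 := Pool.Agent.N290.RJ.Tr.JT h0 h1 hd hT (radialMax f) (radialMax g) hzB
  rw [T.apply_symm_apply] at h10
  have h11 : ∫⁻ w in Pool.Agent.N290.RJ.B d, ENNReal.ofReal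
        (Pool.Agent.N290.RJ.rm (fun w => f (T w)) w * (Pool.Agent.N290.RJ.rm (fun w => f (T w)) w +
          Pool.Agent.N290.RJ.rm (fun w => g (T w)) w) * Pool.Agent.N290.RJ.ker (T.symm z) w) =
      areaIntegral f g z := by
    have h12 : areaIntegral f g z = Pool.Agent.N290.RJ.JJ (fun w => radialMax f (T w))
        (fun w => radialMax g (T w)) (T.symm z) := h10
    rw [h12]
    unfold Pool.Agent.N290.RJ.JJ
    refine setLIntegral_congr_fun Pool.Agent.N290.RJ.B_meas fun w hw => ?_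
    simp only
    rw [rm_T h0 h1 hf.1 hw, rm_T h0 h1 hg.1 hw]
  rw [← h11]
  exact h9

end Pool.Agent.N290.Old.AreaIntegralBound
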