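import Mathlib
import Pool.Agent.N290.RC.BallF

/-!
# The corona theorem on the ball of `ℂ²` for data invariant under one-parameter groups

The complete holomorphic vector fields of the unit ball `B` of `ℂ²` (the generators of the
one-parameter groups of automorphisms of `B`, which form the Lie algebra `su(2,1)`) are
`V(z) = b - ⟨z, b⟩ z + A z`, `b ∈ ℂ²`, `A` skew-Hermitian. We solve the Bezout equation with bounded
holomorphic functions for arbitrary bounded holomorphic functions `G l` together with products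
`∏ j, F j (ι j)`, where the functions `F j i` are invariant under the one-parameter group with the
generator `V j ≠ 0` (different groups for different `j`), as soon as the equation for the `G l` alone
has a bounded solution on the set where all these products are small. With one function `G` the last
condition is the corona condition (take `k = 1 / G`). Examples of invariant functions: `f(⟨z, a⟩)`,
`f(z₁^p z₂^q)`, functions of `z₂ / √(1 - z₁²)` (hyperbolic groups), functions of `w + i y²` in Siegel
coordinates `w, y` (parabolic groups), and their images under automorphisms of `B`.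

The proof: every nonzero element of `su(2,1)` is brought to one of four normal forms by an
automorphism or a Cayley transform (`Pool.Agent.N290.RC.{BallL, BallN, BallO, BallF}`); in the
corresponding coordinates the ball becomes a Reinhardt domain, a tube domain or a domain of mixed
type with convex logarithmic image and the group becomes a group of rotations or translations
(`BallT, BallM, BallH`); on these model domains the fibres of the invariant functions are strips of
variable width in logarithmic coordinates, and bounded holomorphic functions on a fibre extend to the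
domain with norms bounded by an absolute constant times the norm
(`Ker, Rep, ExtT`, see also the result `ReinhardtMonomials`).
-/

set_option autoImplicit false

namespace Pool.Agent.Results.MP_ca0fc2_an.BallOneParameterGroups

open Set Complex

/-- The unit ball of `ℂ²`. -/
def ballC2 : Set (ℂ × ℂ) := {z | ‖z.1‖ ^ 2 + ‖z.2‖ ^ 2 < 1}

/-- The complete holomorphic vector field `V(z) = b - ⟨z, b⟩ z + A z` of the ball, where `A` is the
skew-Hermitian matrix with rows `(i α₁, γ)` and `(-conj γ, i α₂)`. -/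
noncomputable def field (b : ℂ × ℂ) (α : ℝ × ℝ) (γ : ℂ) (z : ℂ × ℂ) : ℂ × ℂ :=
  (b.1 - (z.1 * starRingEnd ℂ b.1 + z.2 * starRingEnd ℂ b.2) * z.1 + I * α.1 * z.1 + γ * z.2,
    b.2 - (z.1 * starRingEnd ℂ b.1 + z.2 * starRingEnd ℂ b.2) * z.2
      - starRingEnd ℂ γ * z.1 + I * α.2 * z.2)

/-- **Corona theorem with localisation for data invariant under one-parameter groups of
automorphisms of the ball and arbitrary functions.**
`F j i` is killed by the `j`-th complete vector field; the set
`{z ∈ B | ∀ ι, ‖∏ j, F j (ι j) z‖ < ε}` is the set where all products with one factor of each family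
are small; `k` is a bounded solution there of the Bezout equation for the arbitrary functions `G l`. -/
theorem result (m M : ℕ) (N : Fin m → ℕ) (ε K : ℝ) (hε : 0 < ε) : ∃ C : ℝ,
    ∀ (b : Fin m → ℂ × ℂ) (α : Fin m → ℝ × ℝ) (γ : Fin m → ℂ),
      (∀ j, ¬(b j = 0 ∧ α j = 0 ∧ γ j = 0)) →
    ∀ F : (j : Fin m) → Fin (N j) → ℂ × ℂ → ℂ,
      (∀ j i, DifferentiableOn ℂ (F j i) ballC2) → (∀ j i, ∀ z ∈ ballC2, ‖F j i z‖ ≤ 1) →
      (∀ j i, ∀ z ∈ ballC2, fderiv ℂ (F j i) z (field (b j) (α j) (γ j) z) = 0) →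
    ∀ G k : Fin M → ℂ × ℂ → ℂ,
      (∀ l, DifferentiableOn ℂ (G l) ballC2) → (∀ l, ∀ z ∈ ballC2, ‖G l z‖ ≤ 1) →
      (∀ l, DifferentiableOn ℂ (k l)
        {z | z ∈ ballC2 ∧ ∀ ι : (j : Fin m) → Fin (N j), ‖∏ j, F j (ι j) z‖ < ε}) →
      (∀ l, ∀ z ∈ ballC2, (∀ ι : (j : Fin m) → Fin (N j), ‖∏ j, F j (ι j) z‖ < ε) →
        ‖k l z‖ ≤ K) →
      (∀ z ∈ ballC2, (∀ ι : (j : Fin m) → Fin (N j), ‖∏ j, F j (ι j) z‖ < ε) →
        ∑ l, G l z * k l z = 1) →
    ∃ (g : ((j : Fin m) → Fin (N j)) → ℂ × ℂ → ℂ) (g₀ : Fin M → ℂ × ℂ → ℂ),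
      (∀ ι, DifferentiableOn ℂ (g ι) ballC2) ∧ (∀ l, DifferentiableOn ℂ (g₀ l) ballC2) ∧
      (∀ ι, ∀ z ∈ ballC2, ‖g ι z‖ ≤ C) ∧ (∀ l, ∀ z ∈ ballC2, ‖g₀ l z‖ ≤ C) ∧
      ∀ z ∈ ballC2, ∑ ι, (∏ j, F j (ι j) z) * g ι z + ∑ l, G l z * g₀ l z = 1 := by
  classical
  choose Cf hC1 hCf using fun j =>
    Pool.Agent.N290.RC.exists_C (N j) M (ε := ε) (K := max K 0) hε (le_max_right _ _)
  set C : ℝ := 1 + ∑ j, Cf j with hC
  have hCj : ∀ j, Cf j ≤ C := by
    intro j
    have := Finset.single_le_sum (f := Cf) (s := Finset.univ)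
      (fun i _ => le_trans zero_le_one (hC1 i)) (Finset.mem_univ j)
    linarith
  have hC0 : 0 ≤ C := by
    have := Finset.sum_nonneg (s := Finset.univ) (f := Cf)
      (fun i _ => le_trans zero_le_one (hC1 i))
    linarith
  refine ⟨max (C ^ m) (m * (C * (1 + M * C) ^ m)), ?_⟩
  intro b α γ hne F hF hFb hV G k hG hGb hk hkb hks
  refine Pool.Agent.N290.RC.prod_loc hC0 hF hG hGb fun j => ?_
  have hV' : ∀ j i, ∀ z ∈ ballC2, fderiv ℂ (F j i) z
      (Pool.Agent.N290.RC.VX (Pool.Agent.N290.RC.Xm (b j).1 (b j).2 (γ j) (α j).1 (α j).2) z) =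
      0 := by
    intro j i z hz
    rw [Pool.Agent.N290.RC.VX_Xm]
    exact hV j i z hz
  have h1 := ((Pool.Agent.N290.RC.loc_of_prod (V := fun j z =>
    Pool.Agent.N290.RC.VX (Pool.Agent.N290.RC.Xm (b j).1 (b j).2 (γ j) (α j).1 (α j).2) z)
    hF hFb hV' hG hGb hk hkb hks j).minε).maxK (le_max_left K 0)
  have hgood := Pool.Agent.N290.RC.good_all
    (Pool.Agent.N290.RC.Xm_sk (b j).1 (b j).2 (γ j) (α j).1 (α j).2)
    (Pool.Agent.N290.RC.Xm_ns (by
      rintro ⟨h1, h2, h3, h4, h5⟩
      exact hne j ⟨Prod.ext h1 h2, Prod.ext h4 h5, h3⟩))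
  exact Pool.Agent.N290.RC.GS.mono (hgood _ _ _ _ _ _ _ _ (lt_min hε one_pos) (hCf j)
    (le_max_right _ _) (le_trans zero_le_one (hC1 j)) h1) (hCj j)

end Pool.Agent.Results.MP_ca0fc2_an.BallOneParameterGroups
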