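import Mathlib
import Pool.Agent.N290.RJ.All
import Pool.Agent.N290.RJ.Clo
import Pool.Agent.N681.RJ.EU
import Pool.Agent.N400.RJ.C9p

/-!
# The corona theorem on the unit ball of `ℂⁿ` for data with square-Dini radial derivatives

Partial answer to Q1 of MP_ca0fc2_an (the corona problem for strictly pseudoconvex domains), for the
unit ball `B` of `ℂⁿ`, `n ≥ 2`, and any number of generators: the corona theorem, with uniform
bounds, for all data in the uniform closure of the class of bounded holomorphic functions `s` whose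
radial derivative `R s (z) = s'(z) z` satisfies `(1 - |z|) |R s (z)| ≤ ω (1 - |z|)` with a
nondecreasing `ω` such that `∫₀¹ ω(t)² dt / t < ∞`, for instance `ω(t) = (log (e / t))^(-s)`,
`s > 1/2`. The case `s = f_j`, `ω ε = ω` for all `ε` is the uniform corona theorem for data with a
given square-Dini modulus; and for finitely many functions in the uniform closure of this class the
hypothesis holds, with `ω ε` the maximum of the moduli of approximants of the functions. (For a
Dini modulus, `∫₀¹ ω(t) dt / t < ∞`, the functions are continuous on the closed ball and the result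
is classical; square-Dini functions need not be continuous at the boundary, an example is
`exp (i log log (e⁴ / (1 - z₁)))`.)

The idea. Let `h₀ = (conj f_j / |f|²)_j` be the smooth solution. Near the boundary its `∂̄` is of the
size `a = ω(1 - |z|)` in the invariant metric, which is not integrable. It is a sum of terms
`f_i (P ∂̄(conj f_j) - Q ∂̄(conj f_i))`. A *nonlinear* recursion (of Riccati type) over the dyadic
radii `t_k`,
`v_{k+1} = (v_k + Q_k) / (1 + conj(Q_k) v_k / A²)`,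
`Q_k(z) = P(t_{k+1} z) conj(f(t_{k+1} z) - f(t_k z))`,
which keeps all `v_k` in the disc of radius `A` whatever the number of steps, produces a bounded
smooth function `v` with `∂̄v = P ∂̄(conj f) + O(a²)`. This gives smooth bounded solutions of the
Bezout equation whose `∂̄` is of the size `a²`, hence integrable against the kernel of the Bergman
projection of the ball (in the invariant form `|γ - P γ|(z) ≤ C ∫_B |∂̄γ|_inv(w) K(z,w) dV(w)`,
`K(z,w) = |1 - ⟨z,w⟩|^(n-2) Δ(z,w)^(-(2n-1)/2)`, `Δ = |1 - ⟨z,w⟩|² - (1 - |z|²)(1 - |w|²)`). Near a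
given boundary point the solutions are therefore uniformly close to holomorphic functions, which
after a division solve the equation near the point; the local solutions are glued with the
localisation principle for `H^∞` (characters), uniformly in the data. The passage to the uniform
closure with uniform bounds is a Gelfand argument in `H^∞` of countably many copies of `B`.

Authors: helper290 (statements, recursion, assembly) and helpers 353 27 498 717 297 271 286 134 136
568 861 438 7 755 704 87 749 897 622 394 787 678 655 247 342 400 681 and, for the two-dimensional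
version, 878 849 545 507 935 767 123 887 738 395 255 614 31 281 2 457 695.
-/

set_option autoImplicit false

namespace Pool.Agent.N290.Old.SquareDini

open MeasureTheory Set Filter Topology
open scoped ENNReal

/-- The unit ball of `ℂ^n`. -/
def unitBall (n : ℕ) : Set (Fin n → ℂ) := {z | ∑ i, ‖z i‖ ^ 2 < 1}

/-- The euclidean norm on `ℂ^n`. -/
noncomputable def nrm {n : ℕ} (z : Fin n → ℂ) : ℝ := Real.sqrt (∑ i, ‖z i‖ ^ 2)

/-- `f` is holomorphic on the ball and bounded by `1`. -/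
def IsUnitHol {n : ℕ} (f : (Fin n → ℂ) → ℂ) : Prop :=
  DifferentiableOn ℂ f (unitBall n) ∧ ∀ z ∈ unitBall n, ‖f z‖ ≤ 1

/-- Nonnegative nondecreasing functions `ω` with `∫₀¹ ω(t)² dt / t < ∞`. -/
def SquareDiniMod (ω : ℝ → ℝ) : Prop :=
  Monotone ω ∧ (∀ t, 0 ≤ ω t) ∧ ∫⁻ t in Ioo (0 : ℝ) 1, ENNReal.ofReal (ω t ^ 2 / t) < ⊤

/-- `s` is holomorphic on the ball and its radial derivative `R s (z) = s'(z) z` satisfies
`(1 - |z|) |R s (z)| ≤ ω (1 - |z|)`. -/
def HasRadialModulus {n : ℕ} (ω : ℝ → ℝ) (s : (Fin n → ℂ) → ℂ) : Prop :=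
  DifferentiableOn ℂ s (unitBall n) ∧
    ∀ z ∈ unitBall n, (1 - nrm z) * ‖fderiv ℂ s z z‖ ≤ ω (1 - nrm z)

/-- **The uniform corona theorem on the ball of `ℂ^n`, `n ≥ 2`, for data in the uniform closure of
the functions with square-Dini radial derivative.** For all `N`, `δ > 0` and square-Dini functions
`ω ε` (`ε > 0`) there is `C` such that all `f_1, …, f_N` which are holomorphic on the ball and
bounded by `1`, are for every `ε > 0` uniformly within `ε` of holomorphic functions with radial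
modulus `ω ε`, and satisfy `∑ |f_j| ≥ δ`, admit holomorphic `g_1, …, g_N` with `∑ f_j g_j = 1` and
`|g_j| ≤ C`. -/
theorem result (n : ℕ) (hn : 2 ≤ n) (N : ℕ) (δ : ℝ) (hδ : 0 < δ) (ω : ℝ → ℝ → ℝ)
    (hω : ∀ ε : ℝ, 0 < ε → SquareDiniMod (ω ε)) :
    ∃ C : ℝ, ∀ f : Fin N → (Fin n → ℂ) → ℂ, (∀ j, IsUnitHol (f j)) →
      (∀ j, ∀ ε : ℝ, 0 < ε → ∃ s : (Fin n → ℂ) → ℂ, HasRadialModulus (ω ε) s ∧
        ∀ z ∈ unitBall n, ‖f j z - s z‖ ≤ ε) →
      (∀ z ∈ unitBall n, δ ≤ ∑ j, ‖f j z‖) →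
      ∃ g : Fin N → (Fin n → ℂ) → ℂ, (∀ j, DifferentiableOn ℂ (g j) (unitBall n)) ∧
        (∀ j, ∀ z ∈ unitBall n, ‖g j z‖ ≤ C) ∧ ∀ z ∈ unitBall n, ∑ j, f j z * g j z = 1 := by
  obtain ⟨d, rfl⟩ : ∃ d, n = d + 1 := ⟨n - 1, by omega⟩
  have hd : 1 ≤ d := by omega
  obtain ⟨T, h0, h1, -⟩ := Pool.Agent.N247.RJ.T1 d
  have hC9 := Pool.Agent.N400.RJ.C9p_of d hd (Pool.Agent.N290.RJ.a_C3 d)
    (Pool.Agent.N290.RJ.a_C4 d) (Pool.Agent.N290.RJ.a_C4b d) (Pool.Agent.N290.RJ.a_C6 d)
  have hP1 : Pool.Agent.N290.RJ.P1 d := fun M δ ω hδ hω =>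
    Pool.Agent.N290.RJ.gen_rad_of (Pool.Agent.N290.RJ.a_SmainR d) (Pool.Agent.N290.RJ.a_S2 d)
      (Pool.Agent.N749.RJ.D2N d) (Pool.Agent.N290.RJ.a_LA d hC9) (Pool.Agent.N787.RJ.D4N d)
      (Pool.Agent.N290.RJ.a_LOC d) Pool.Agent.N717.RI.e1 (Pool.Agent.N290.RJ.a_SP d)
      (Pool.Agent.N681.RJ.EU d) M δ hδ ω hω.1 hω.2.1 hω.2.2.ne |>.imp
        fun C h f h1 h2 h3 h4 => h f h1 h2 h3 h4
  have hmem := Pool.Agent.N290.RJ.Tr.mem_T h0 h1
  have hmem' := Pool.Agent.N290.RJ.Tr.mem_T' h0 h1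
  obtain ⟨C, hC⟩ := Pool.Agent.N290.RJ.unif_of hP1 N δ hδ ω hω
  refine ⟨C, fun f hf hs hδf => ?_⟩
  obtain ⟨g, hg1, hg2⟩ := hC (fun j z => f j (T z))
    (fun j => Pool.Agent.N290.RJ.Tr.hol_T h0 h1 (hf j).1)
    (fun j z hz => (hf j).2 _ ((hmem z).2 hz)) (fun z hz => hδf _ ((hmem z).2 hz))
    (fun j ε hε => by
      obtain ⟨s, ⟨hs1, hs2⟩, hfs⟩ := hs j ε hε
      refine ⟨fun z => s (T z), Pool.Agent.N290.RJ.Tr.hol_T h0 h1 hs1, fun z hz => ?_,
        fun z hz => hfs _ ((hmem z).2 hz)⟩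
      rw [Pool.Agent.N290.RJ.Tr.fd_T h0 h1 hs1 hz, ← Pool.Agent.N290.RJ.Tr.nm_T h0 h1]
      exact hs2 _ ((hmem z).2 hz))
  refine ⟨fun j z => g j (T.symm z), fun j => Pool.Agent.N290.RJ.Tr.hol_T' h0 h1 (hg1 j),
    fun j z hz => (hg2 _ ((hmem' z).2 hz)).1 j, fun z hz => ?_⟩
  have h2 := (hg2 _ ((hmem' z).2 hz)).2
  simp only [T.apply_symm_apply] at h2
  exact h2

end Pool.Agent.N290.Old.SquareDini
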