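import Mathlib
import Pool.Agent.N290.RK.All2
import Pool.Agent.N290.RK.Tr2

/-!
# The corona theorem on the unit ball of `ℂⁿ` for square-Dini functions and arbitrary functions

Partial answer to Q1 of MP_ca0fc2_an (the corona problem for strictly pseudoconvex domains), for the
unit ball `B` of `ℂⁿ`. Let `𝒟` be the uniform closure of the class of bounded holomorphic functions
`s` on `B` whose radial derivative satisfies `(1 - |z|) |s'(z) z| ≤ ω (1 - |z|)` with a nondecreasing
`ω` such that `∫₀¹ ω(t)² dt / t < ∞`.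

(1) If `f_1, …, f_N ∈ 𝒟`, and `G_1, …, G_L` are *arbitrary* bounded holomorphic functions which have
bounded holomorphic solutions of `∑ G_l k_l = 1` on the set where all `|f_j| < ε`, then
`∑ f_j g_j + ∑ G_l h_l = 1` has bounded holomorphic solutions on `B`, with bounds which depend only on
the data. The case `L = 0` (where `∑ G_l k_l = 1` means that the set is empty) is the corona theorem
for the class `𝒟`; the case `L = 1` (`k = 1 / G`) is the corona theorem for `f_1, …, f_N ∈ 𝒟` and one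
arbitrary function `G`.

(2) The same is true if the hypotheses hold near each boundary point, where the splitting of the
functions into good and arbitrary ones may depend on the point.

(3) In particular the corona theorem holds for all bounded holomorphic data `F_1, …, F_M` such that
near each boundary point `p` all but one of the functions belong to the class `𝒟` locally (the
exceptional one is arbitrary and may depend on `p`).

The idea. For `f = f_j` in the class (with modulus `ω`), one constructs smooth functions `X` on `B`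
(for the dilated function `f(t_k z)`, uniformly in `k`) with *prescribed modulus* `|X| = λ`,
`λ = φ(f)² + α²`, `φ` a cut-off function, `α` comparable with `ω`, which vanish where `|f|` is not
small, with `|X| ≥ 1` where `|f|` is very small, and whose `∂̄` is of the size `ω(1 - |z|)²` in the
invariant metric, hence small against the kernel of the Bergman projection. The phase of `X` is the
sum over the dyadic radii `t_j` of `2 Im (p_j (f(t_{j+1} z) - f(t_j z)))`, `p_j = ∂_w log λ`, and it
is controlled by the potential `λ_j |∂̄ S_j - i conj(p_j f_j')|`. The product `K = X_1 ⋯ X_N k_l` is a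
bounded function on the whole of `B` with small `∂̄`, although `k_l` exists only where the `f_j` are
small and is arbitrary there. The conjugates of `f_j` and of `X_j` are up to small errors (by a second
bounded recursion, of Riccati type, as in our treatment of the class `𝒟`) also functions with small
`∂̄`. Near a boundary point all these functions are uniformly close to holomorphic functions, and
`∑ |f_j|² + |X_1 ⋯ X_N|²`, which is bounded from below, is close to a combination of the `f_j` and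
`G_l` with bounded holomorphic coefficients. The local solutions are glued with characters.

Authors: helper290 (statements, recursions, assembly) and helpers 250 401 427 327 558 966 914 617 833
692 458 602 40 787 301 359 551 and, for the parts on the class `𝒟` used here, 353 27 498 717 297 271
286 134 136 568 861 438 7 755 704 87 749 897 622 394 678 655 247 342 681.
-/

set_option autoImplicit false

namespace Pool.Agent.N290.Old.SquareDiniArbitrary

open MeasureTheory Set Filter Topology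
open scoped ENNReal

/-- The unit ball of `ℂ^n`. -/
def unitBall (n : ℕ) : Set (Fin n → ℂ) := {z | ∑ i, ‖z i‖ ^ 2 < 1}

/-- The euclidean norm on `ℂ^n`. -/
noncomputable def nrm {n : ℕ} (z : Fin n → ℂ) : ℝ := Real.sqrt (∑ i, ‖z i‖ ^ 2)

/-- `f` is holomorphic on the ball and bounded by `1`. -/
def IsUnitHol {n : ℕ} (f : (Fin n → ℂ) → ℂ) : Prop :=
  DifferentiableOn ℂ f (unitBall n) ∧ ∀ z ∈ unitBall n, ‖f z‖ ≤ 1

/-- Nonnegative nondecreasing functions `ω` with `∫₀¹ ω(t)² dt / t < ∞`. -/
def SquareDiniMod (ω : ℝ → ℝ) : Prop :=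
  Monotone ω ∧ (∀ t, 0 ≤ ω t) ∧ ∫⁻ t in Ioo (0 : ℝ) 1, ENNReal.ofReal (ω t ^ 2 / t) < ⊤

/-- `s` is holomorphic on the ball and its radial derivative `R s (z) = s'(z) z` satisfies
`(1 - |z|) |R s (z)| ≤ ω (1 - |z|)`. -/
def HasRadialModulus {n : ℕ} (ω : ℝ → ℝ) (s : (Fin n → ℂ) → ℂ) : Prop :=
  DifferentiableOn ℂ s (unitBall n) ∧
    ∀ z ∈ unitBall n, (1 - nrm z) * ‖fderiv ℂ s z z‖ ≤ ω (1 - nrm z)

/-- Near the boundary point `p`, `f` is in the uniform closure of the bounded functions with
square-Dini radial derivative: for every `η > 0` there is such a function `s` with `|f - s| ≤ η` on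
the part of the ball in some neighbourhood of `p`. -/
def SquareDiniAt {n : ℕ} (p : Fin n → ℂ) (f : (Fin n → ℂ) → ℂ) : Prop :=
  ∀ η : ℝ, 0 < η → ∃ (s : (Fin n → ℂ) → ℂ) (ω : ℝ → ℝ) (b r : ℝ), SquareDiniMod ω ∧ 0 < r ∧
    HasRadialModulus ω s ∧ (∀ z ∈ unitBall n, ‖s z‖ ≤ b) ∧
    ∀ z ∈ unitBall n, nrm (z - p) < r → ‖f z - s z‖ ≤ η

/-- Near `p`, where the functions `F j`, `j ∈ J`, are small, the Bezout equation for the remaining
functions `F l`, `l ∉ J`, has bounded holomorphic solutions. -/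
def SolvableWhereSmall {n M : ℕ} (p : Fin n → ℂ) (J : Finset (Fin M))
    (F : Fin M → (Fin n → ℂ) → ℂ) : Prop :=
  ∃ (ε A : ℝ) (k : Fin M → (Fin n → ℂ) → ℂ), 0 < ε ∧
    (∀ l, DifferentiableOn ℂ (k l)
      {z | z ∈ unitBall n ∧ nrm (z - p) < ε ∧ ∀ j ∈ J, ‖F j z‖ < ε}) ∧
    ∀ z ∈ unitBall n, nrm (z - p) < ε → (∀ j ∈ J, ‖F j z‖ < ε) →
      (∀ l, ‖k l z‖ ≤ A) ∧ ∑ l ∈ Jᶜ, F l z * k l z = 1

/-- The Bezout equation for `F` has bounded holomorphic solutions on the ball. -/
def Solvable {n M : ℕ} (F : Fin M → (Fin n → ℂ) → ℂ) : Prop :=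
  ∃ (g : Fin M → (Fin n → ℂ) → ℂ) (C : ℝ), (∀ j, DifferentiableOn ℂ (g j) (unitBall n)) ∧
    ∀ z ∈ unitBall n, (∀ j, ‖g j z‖ ≤ C) ∧ ∑ j, F j z * g j z = 1

/-- **Square-Dini functions and arbitrary functions on the ball of `ℂ^n`**: (1) uniform global
version; (2) local version; (3) one arbitrary function near each boundary point. -/
theorem result (n : ℕ) (hn : 1 ≤ n) :
    (∀ (N L : ℕ) (ε A : ℝ) (ω : ℝ → ℝ → ℝ), 0 < ε → (∀ η : ℝ, 0 < η → SquareDiniMod (ω η)) →
      ∃ C : ℝ, ∀ (f : Fin N → (Fin n → ℂ) → ℂ) (G k : Fin L → (Fin n → ℂ) → ℂ),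
        (∀ j, IsUnitHol (f j)) → (∀ l, IsUnitHol (G l)) →
        (∀ j, ∀ η : ℝ, 0 < η → ∃ s : (Fin n → ℂ) → ℂ, HasRadialModulus (ω η) s ∧
          ∀ z ∈ unitBall n, ‖f j z - s z‖ ≤ η) →
        (∀ l, DifferentiableOn ℂ (k l) {z | z ∈ unitBall n ∧ ∀ j, ‖f j z‖ < ε}) →
        (∀ z ∈ unitBall n, (∀ j, ‖f j z‖ < ε) →
          (∀ l, ‖k l z‖ ≤ A) ∧ ∑ l, G l z * k l z = 1) →
        ∃ (g : Fin N → (Fin n → ℂ) → ℂ) (h : Fin L → (Fin n → ℂ) → ℂ),
          (∀ j, DifferentiableOn ℂ (g j) (unitBall n)) ∧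
          (∀ l, DifferentiableOn ℂ (h l) (unitBall n)) ∧
          ∀ z ∈ unitBall n, (∀ j, ‖g j z‖ ≤ C) ∧ (∀ l, ‖h l z‖ ≤ C) ∧
            ∑ j, f j z * g j z + ∑ l, G l z * h l z = 1) ∧
    (∀ (M : ℕ) (δ : ℝ) (F : Fin M → (Fin n → ℂ) → ℂ), 0 < δ → (∀ j, IsUnitHol (F j)) →
      (∀ z ∈ unitBall n, δ ≤ ∑ j, ‖F j z‖) →
      (∀ p : Fin n → ℂ, nrm p = 1 → ∃ J : Finset (Fin M),
        (∀ j ∈ J, SquareDiniAt p (F j)) ∧ SolvableWhereSmall p J F) →
      Solvable F) ∧
    (∀ (M : ℕ) (δ : ℝ) (F : Fin M → (Fin n → ℂ) → ℂ), 0 < δ → (∀ j, IsUnitHol (F j)) →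
      (∀ z ∈ unitBall n, δ ≤ ∑ j, ‖F j z‖) →
      (∀ p : Fin n → ℂ, nrm p = 1 → ∃ k : Fin M, ∀ j, j ≠ k → SquareDiniAt p (F j)) →
      Solvable F) := by
  obtain ⟨d, rfl⟩ : ∃ d, n = d + 1 := ⟨n - 1, by omega⟩
  have h2 : ∀ (M : ℕ) (δ : ℝ) (F : Fin M → (Fin (d + 1) → ℂ) → ℂ), 0 < δ →
      (∀ j, IsUnitHol (F j)) → (∀ z ∈ unitBall (d + 1), δ ≤ ∑ j, ‖F j z‖) →
      (∀ p : Fin (d + 1) → ℂ, nrm p = 1 → ∃ J : Finset (Fin M),
        (∀ j ∈ J, SquareDiniAt p (F j)) ∧ SolvableWhereSmall p J F) →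
      Solvable F := by
    intro M δ F hδ hF hlow hloc
    refine Pool.Agent.N290.RK.Tr2.partB (Pool.Agent.N290.RK.b_GlP d) M δ hδ F hF hlow
      fun p hp => ?_
    obtain ⟨J, hJ, ε, A, k, hε, hk1, hk2⟩ := hloc p hp
    exact ⟨J, ε, A, hε, hJ, k, hk1, hk2⟩
  refine ⟨?_, h2, ?_⟩
  · intro N L ε A ω hε hω
    exact Pool.Agent.N290.RK.Tr2.partA (Pool.Agent.N290.RK.b_GlC d) N L ε A hε ω hω
  · intro M δ F hδ hF hlow hloc
    refine h2 M δ F hδ hF hlow fun p hp => ?_
    obtain ⟨k, hk⟩ := hloc p hp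
    have hM : (0 : ℝ) < M + 1 := by positivity
    obtain ⟨ε, hε⟩ : ∃ ε : ℝ, ε = δ / (2 * (M + 1)) := ⟨_, rfl⟩
    have hε0 : 0 < ε := by rw [hε]; positivity
    have hlowk : ∀ z ∈ unitBall (d + 1), (∀ j ∈ Finset.univ.erase k, ‖F j z‖ < ε) →
        δ / 2 ≤ ‖F k z‖ := by
      intro z hz hsm
      have h3 := hlow z hz
      rw [← Finset.add_sum_erase _ _ (Finset.mem_univ k)] at h3
      have h4 : ∑ j ∈ Finset.univ.erase k, ‖F j z‖ ≤ ∑ j ∈ Finset.univ.erase k, ε :=
        Finset.sum_le_sum fun j hj => (hsm j hj).le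
      have h5 : ∑ j ∈ (Finset.univ : Finset (Fin M)).erase k, ε ≤ M * ε := by
        rw [Finset.sum_const, nsmul_eq_mul]
        refine mul_le_mul_of_nonneg_right ?_ hε0.le
        have h6 := Finset.card_erase_le (s := (Finset.univ : Finset (Fin M))) (a := k)
        rw [Finset.card_univ, Fintype.card_fin] at h6
        exact_mod_cast h6
      have h6 : M * ε ≤ δ / 2 := by
        rw [hε]
        have h7 : (M : ℝ) * (δ / (2 * (M + 1))) = δ / 2 * (M / (M + 1)) := by field_simp
        have h8 : (M : ℝ) / (M + 1) ≤ 1 := by rw [div_le_one hM]; linarith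
        rw [h7]
        nlinarith
      linarith
    refine ⟨Finset.univ.erase k, fun j hj => hk j (Finset.ne_of_mem_erase hj), ε, 2 / δ,
      fun l z => if l = k then (F k z)⁻¹ else 0, hε0, fun l => ?_, fun z hz _ hsm => ⟨fun l => ?_,
        ?_⟩⟩
    · by_cases hl : l = k
      · simp only [hl, if_true]
        refine ((hF k).1.mono fun z hz => hz.1).inv fun z hz => ?_
        have h3 := hlowk z hz.1 hz.2.2
        intro h0
        rw [h0, norm_zero] at h3
        linarith
      · simp only [hl, if_false]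
        exact differentiableOn_const _
    · have h3 := hlowk z hz hsm
      dsimp only
      split_ifs
      · rw [norm_inv]
        calc ‖F k z‖⁻¹ ≤ (δ / 2)⁻¹ := inv_anti₀ (by positivity) h3
          _ = 2 / δ := by rw [inv_div]
      · rw [norm_zero]; positivity
    · have h3 := hlowk z hz hsm
      have h4 : (Finset.univ.erase k : Finset (Fin M))ᶜ = {k} := by
        ext j; simp
      rw [h4, Finset.sum_singleton]
      show F k z * (if k = k then (F k z)⁻¹ else 0) = 1
      rw [if_pos rfl, mul_inv_cancel₀]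
      intro h0
      rw [h0, norm_zero] at h3
      linarith

end Pool.Agent.N290.Old.SquareDiniArbitrary
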