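import Mathlib
import Pool.Agent.N290.RM.All2
import Pool.Agent.N290.RM.Tr3

/-!
# The corona theorem on the unit ball of `ℂⁿ` for functions with vanishing area integral and
arbitrary functions

Partial answer to Q1 of MP_ca0fc2_an (the corona problem for strictly pseudoconvex domains), for the
unit ball `B` of `ℂⁿ`, `n ≥ 2`, and any number of generators. Let
`K(z,w) = |1 - ⟨z,w⟩|^(n-2) Δ(z,w)^(-(2n-1)/2)`, `Δ(z,w) = |1 - ⟨z,w⟩|² - (1 - |z|²)(1 - |w|²)`, and let
`𝒱` be the uniform closure of the class of bounded holomorphic functions `s` on `B` which have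
*vanishing area integral*: `|s'| ≤ a` in the Bergman metric for a slowly varying `a` (`C¹`, positive,
`|a'| ≤ a / 256` in the Bergman metric) with
`sup_z ∫_{1 - |w|² ≤ κ} a(w)² K(z, w) dV(w) → 0` as `κ → 0`.

(1) If `f_1, …, f_N ∈ 𝒱`, and `G_1, …, G_L` are *arbitrary* bounded holomorphic functions which have
bounded holomorphic solutions of `∑ G_l k_l = 1` on the set where all `|f_j| < ε`, then
`∑ f_j g_j + ∑ G_l h_l = 1` has bounded holomorphic solutions on `B`, with bounds which depend only on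
the data. The case `L = 0` (where `∑ G_l k_l = 1` means that the set is empty) is the corona theorem
for the class `𝒱`; the case `L = 1` (`k = 1 / G`) is the corona theorem for `f_1, …, f_N ∈ 𝒱` and one
arbitrary function `G`.

(2) The same is true if the hypotheses hold near each boundary point, where the splitting of the
functions into good and arbitrary ones may depend on the point.

(3) In particular the corona theorem holds for all bounded holomorphic data `F_1, …, F_M` such that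
near each boundary point `p` all but one of the functions belong to the class `𝒱` locally (the
exceptional one is arbitrary and may depend on `p`).

(4) The class contains the bounded functions with square-Dini radial derivative,
`(1 - |z|) |s'(z) z| ≤ ω (1 - |z|)` with a nondecreasing `ω` such that `∫₀¹ ω(t)² dt / t < ∞`; so (1), (2)
and (3) hold with this class in place of `𝒱`.

The idea. For `f = f_j` in the class, one constructs smooth functions `X` on `B` (for the dilated
function `f(t_k z)`, uniformly in `k`) with *prescribed modulus* `|X| = λ`, `λ = φ(f)² + α²`, `φ` a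
cut-off function, `α` comparable with `a`, which vanish where `|f|` is not small, with `|X| ≥ 1` where
`|f|` is very small, and whose `∂̄` is of the size `a²` in the invariant metric. The phase of `X` is the
sum over the dyadic radii `t_j` of `2 Im (p_j (f(t_{j+1} z) - f(t_j z)))`, `p_j = ∂_w log λ`, and it
is controlled by the potential `λ_j |∂̄ S_j - i conj(p_j f_j')|`. The product `K = X_1 ⋯ X_N k_l` is a
bounded function on the whole of `B` with small `∂̄`, although `k_l` exists only where the `f_j` are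
small and is arbitrary there. The conjugates of `f_j` and of `X_j` are up to small errors (by a second
bounded recursion, of Riccati type, started near the boundary) also functions with small `∂̄`. Near a
boundary point all these functions are uniformly close to holomorphic functions, and
`∑ |f_j|² + |X_1 ⋯ X_N|²`, which is bounded from below, is close to a combination of the `f_j` and
`G_l` with bounded holomorphic coefficients. The local solutions are glued with characters.

Authors: helper290 (statements, recursions, assembly) and helpers 526 2 164 327 385 249 285 881 123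
195 18 (general weights), 293 99 283 453 300 7 252 707 262, 401 427 458 551 (after 250 558 966 914 617
833 692 602 40 787 301 359) and, for the parts on the ball used here, 353 27 498 717 297 271 286 134
136 568 861 438 755 704 87 749 897 622 394 678 655 247 342 681.
-/

set_option autoImplicit false

namespace Pool.Agent.N290.Old.VanishingAreaIntegral

open MeasureTheory Set Filter Topology
open scoped ENNReal

/-- The unit ball of `ℂ^n`. -/
def unitBall (n : ℕ) : Set (Fin n → ℂ) := {z | ∑ i, ‖z i‖ ^ 2 < 1}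

/-- The euclidean norm on `ℂ^n`. -/
noncomputable def nrm {n : ℕ} (z : Fin n → ℂ) : ℝ := Real.sqrt (∑ i, ‖z i‖ ^ 2)

/-- The hermitian product `⟨z, w⟩` on `ℂ^n`. -/
noncomputable def herm {n : ℕ} (z w : Fin n → ℂ) : ℂ := ∑ i, z i * starRingEnd ℂ (w i)

/-- The length of the vector `ξ` at the point `z` of the ball in the Bergman metric
(normalised to be the euclidean length at `z = 0`). -/
noncomputable def length {n : ℕ} (z ξ : Fin n → ℂ) : ℝ :=
  Real.sqrt (nrm ξ ^ 2 / (1 - nrm z ^ 2) + ‖herm ξ z‖ ^ 2 / (1 - nrm z ^ 2) ^ 2)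

/-- The kernel `|1 - ⟨z,w⟩|^(n-2) / (|1 - ⟨z,w⟩|² - (1 - |z|²) (1 - |w|²))^((2n-1)/2)`. -/
noncomputable def kernel {n : ℕ} (z w : Fin n → ℂ) : ℝ :=
  ‖1 - herm z w‖ ^ (n - 2) /
    Real.sqrt (‖1 - herm z w‖ ^ 2 - (1 - nrm z ^ 2) * (1 - nrm w ^ 2)) ^ (2 * n - 1)

/-- `f` is holomorphic on the ball and bounded by `1`. -/
def IsUnitHol {n : ℕ} (f : (Fin n → ℂ) → ℂ) : Prop :=
  DifferentiableOn ℂ f (unitBall n) ∧ ∀ z ∈ unitBall n, ‖f z‖ ≤ 1

/-- Slowly varying positive functions: `C¹` on the ball, `|a'(z) ξ| ≤ a(z) / 256` times the length of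
`ξ` at `z` in the Bergman metric. -/
def SlowlyVarying {n : ℕ} (a : (Fin n → ℂ) → ℝ) : Prop :=
  ContDiffOn ℝ 1 a (unitBall n) ∧ (∀ z ∈ unitBall n, 0 < a z) ∧
    ∀ z ∈ unitBall n, ∀ ξ, |fderiv ℝ a z ξ| ≤ 1 / 256 * (a z * length z ξ)

/-- `τ(κ) → 0` as `κ → 0+`. -/
def Vanishing (τ : ℝ → ℝ) : Prop := Tendsto τ (𝓝[>] 0) (𝓝 0)

/-- `s` is holomorphic on the ball, bounded by `b`, and `|s'| ≤ a` in the Bergman metric for a slowly
varying `a` such that `∫_{1 - |w|² ≤ κ} a(w)² K(z, w) dV(w) ≤ τ(κ)` for all `κ > 0` and all `z` in the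
ball. -/
def AreaClass {n : ℕ} (τ : ℝ → ℝ) (b : ℝ) (s : (Fin n → ℂ) → ℂ) : Prop :=
  DifferentiableOn ℂ s (unitBall n) ∧ (∀ z ∈ unitBall n, ‖s z‖ ≤ b) ∧
    ∃ a : (Fin n → ℂ) → ℝ, SlowlyVarying a ∧
      (∀ z ∈ unitBall n, ∀ ξ, ‖fderiv ℂ s z ξ‖ ≤ a z * length z ξ) ∧
      ∀ κ : ℝ, 0 < κ → ∀ z ∈ unitBall n, ∫⁻ w in unitBall n,
        ENNReal.ofReal ((if 1 - nrm w ^ 2 ≤ κ then a w ^ 2 else 0) * kernel z w) ≤
          ENNReal.ofReal (τ κ)

/-- Near the boundary point `p`, `f` is in the uniform closure of the functions with vanishing area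
integral: for every `η > 0` there is such a function `s` with `|f - s| ≤ η` on the part of the ball in
some neighbourhood of `p`. -/
def VanishingAt {n : ℕ} (p : Fin n → ℂ) (f : (Fin n → ℂ) → ℂ) : Prop :=
  ∀ η : ℝ, 0 < η → ∃ (s : (Fin n → ℂ) → ℂ) (τ : ℝ → ℝ) (b r : ℝ), Vanishing τ ∧ 0 < r ∧
    AreaClass τ b s ∧ ∀ z ∈ unitBall n, nrm (z - p) < r → ‖f z - s z‖ ≤ η

/-- Near `p`, where the functions `F j`, `j ∈ J`, are small, the Bezout equation for the remaining
functions `F l`, `l ∉ J`, has bounded holomorphic solutions. -/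
def SolvableWhereSmall {n M : ℕ} (p : Fin n → ℂ) (J : Finset (Fin M))
    (F : Fin M → (Fin n → ℂ) → ℂ) : Prop :=
  ∃ (ε A : ℝ) (k : Fin M → (Fin n → ℂ) → ℂ), 0 < ε ∧
    (∀ l, DifferentiableOn ℂ (k l)
      {z | z ∈ unitBall n ∧ nrm (z - p) < ε ∧ ∀ j ∈ J, ‖F j z‖ < ε}) ∧
    ∀ z ∈ unitBall n, nrm (z - p) < ε → (∀ j ∈ J, ‖F j z‖ < ε) →
      (∀ l, ‖k l z‖ ≤ A) ∧ ∑ l ∈ Jᶜ, F l z * k l z = 1

/-- The Bezout equation for `F` has bounded holomorphic solutions on the ball. -/
def Solvable {n M : ℕ} (F : Fin M → (Fin n → ℂ) → ℂ) : Prop :=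
  ∃ (g : Fin M → (Fin n → ℂ) → ℂ) (C : ℝ), (∀ j, DifferentiableOn ℂ (g j) (unitBall n)) ∧
    ∀ z ∈ unitBall n, (∀ j, ‖g j z‖ ≤ C) ∧ ∑ j, F j z * g j z = 1

/-- Nonnegative nondecreasing functions `ω` with `∫₀¹ ω(t)² dt / t < ∞`. -/
def SquareDiniMod (ω : ℝ → ℝ) : Prop :=
  Monotone ω ∧ (∀ t, 0 ≤ ω t) ∧ ∫⁻ t in Ioo (0 : ℝ) 1, ENNReal.ofReal (ω t ^ 2 / t) < ⊤

/-- **Functions with vanishing area integral and arbitrary functions on the ball of `ℂ^n`**:
(1) uniform global version; (2) local version; (3) one arbitrary function near each boundary point;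
(4) functions with square-Dini radial derivative belong to the class. -/
theorem result (n : ℕ) (hn : 2 ≤ n) :
    (∀ (N L : ℕ) (ε A : ℝ) (τ : ℝ → ℝ → ℝ) (b : ℝ → ℝ), 0 < ε →
      (∀ η : ℝ, 0 < η → Vanishing (τ η)) →
      ∃ C : ℝ, ∀ (f : Fin N → (Fin n → ℂ) → ℂ) (G k : Fin L → (Fin n → ℂ) → ℂ),
        (∀ j, IsUnitHol (f j)) → (∀ l, IsUnitHol (G l)) →
        (∀ j, ∀ η : ℝ, 0 < η → ∃ s : (Fin n → ℂ) → ℂ, AreaClass (τ η) (b η) s ∧
          ∀ z ∈ unitBall n, ‖f j z - s z‖ ≤ η) →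
        (∀ l, DifferentiableOn ℂ (k l) {z | z ∈ unitBall n ∧ ∀ j, ‖f j z‖ < ε}) →
        (∀ z ∈ unitBall n, (∀ j, ‖f j z‖ < ε) →
          (∀ l, ‖k l z‖ ≤ A) ∧ ∑ l, G l z * k l z = 1) →
        ∃ (g : Fin N → (Fin n → ℂ) → ℂ) (h : Fin L → (Fin n → ℂ) → ℂ),
          (∀ j, DifferentiableOn ℂ (g j) (unitBall n)) ∧
          (∀ l, DifferentiableOn ℂ (h l) (unitBall n)) ∧
          ∀ z ∈ unitBall n, (∀ j, ‖g j z‖ ≤ C) ∧ (∀ l, ‖h l z‖ ≤ C) ∧
            ∑ j, f j z * g j z + ∑ l, G l z * h l z = 1) ∧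
    (∀ (M : ℕ) (δ : ℝ) (F : Fin M → (Fin n → ℂ) → ℂ), 0 < δ → (∀ j, IsUnitHol (F j)) →
      (∀ z ∈ unitBall n, δ ≤ ∑ j, ‖F j z‖) →
      (∀ p : Fin n → ℂ, nrm p = 1 → ∃ J : Finset (Fin M),
        (∀ j ∈ J, VanishingAt p (F j)) ∧ SolvableWhereSmall p J F) →
      Solvable F) ∧
    (∀ (M : ℕ) (δ : ℝ) (F : Fin M → (Fin n → ℂ) → ℂ), 0 < δ → (∀ j, IsUnitHol (F j)) →
      (∀ z ∈ unitBall n, δ ≤ ∑ j, ‖F j z‖) →
      (∀ p : Fin n → ℂ, nrm p = 1 → ∃ k : Fin M, ∀ j, j ≠ k → VanishingAt p (F j)) →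
      Solvable F) ∧
    (∀ (ω : ℝ → ℝ) (b : ℝ), SquareDiniMod ω → ∃ τ : ℝ → ℝ, Vanishing τ ∧
      ∀ s : (Fin n → ℂ) → ℂ, DifferentiableOn ℂ s (unitBall n) →
        (∀ z ∈ unitBall n, ‖s z‖ ≤ b) →
        (∀ z ∈ unitBall n, (1 - nrm z) * ‖fderiv ℂ s z z‖ ≤ ω (1 - nrm z)) →
        AreaClass τ b s) := by
  obtain ⟨d, rfl⟩ : ∃ d, n = d + 1 := ⟨n - 1, by omega⟩
  have hd : 1 ≤ d := by omega
  have h2 : ∀ (M : ℕ) (δ : ℝ) (F : Fin M → (Fin (d + 1) → ℂ) → ℂ), 0 < δ →
      (∀ j, IsUnitHol (F j)) → (∀ z ∈ unitBall (d + 1), δ ≤ ∑ j, ‖F j z‖) →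
      (∀ p : Fin (d + 1) → ℂ, nrm p = 1 → ∃ J : Finset (Fin M),
        (∀ j ∈ J, VanishingAt p (F j)) ∧ SolvableWhereSmall p J F) →
      Solvable F := by
    intro M δ F hδ hF hlow hloc
    refine Pool.Agent.N290.RM.Tr3.partB hd (Pool.Agent.N290.RM.e_GPG d)
      (Pool.Agent.N290.RJ.a_SP d) M δ hδ F hF hlow fun p hp => ?_
    obtain ⟨J, hJ, ε, A, k, hε, hk1, hk2⟩ := hloc p hp
    exact ⟨J, ε, A, hε, hJ, k, hk1, hk2⟩
  refine ⟨?_, h2, ?_, ?_⟩
  · intro N L ε A τ b hε hτ
    exact Pool.Agent.N290.RM.Tr3.partA hd (Pool.Agent.N290.RM.e_GCG d)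
      (Pool.Agent.N290.RJ.a_SP d) N L ε A hε τ b hτ
  · intro M δ F hδ hF hlow hloc
    refine h2 M δ F hδ hF hlow fun p hp => ?_
    obtain ⟨k, hk⟩ := hloc p hp
    have hM : (0 : ℝ) < M + 1 := by positivity
    obtain ⟨ε, hε⟩ : ∃ ε : ℝ, ε = δ / (2 * (M + 1)) := ⟨_, rfl⟩
    have hε0 : 0 < ε := by rw [hε]; positivity
    have hlowk : ∀ z ∈ unitBall (d + 1), (∀ j ∈ Finset.univ.erase k, ‖F j z‖ < ε) →
        δ / 2 ≤ ‖F k z‖ := by
      intro z hz hsm
      have h3 := hlow z hz
      rw [← Finset.add_sum_erase _ _ (Finset.mem_univ k)] at h3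
      have h4 : ∑ j ∈ Finset.univ.erase k, ‖F j z‖ ≤ ∑ j ∈ Finset.univ.erase k, ε :=
        Finset.sum_le_sum fun j hj => (hsm j hj).le
      have h5 : ∑ j ∈ (Finset.univ : Finset (Fin M)).erase k, ε ≤ M * ε := by
        rw [Finset.sum_const, nsmul_eq_mul]
        refine mul_le_mul_of_nonneg_right ?_ hε0.le
        have h6 := Finset.card_erase_le (s := (Finset.univ : Finset (Fin M))) (a := k)
        rw [Finset.card_univ, Fintype.card_fin] at h6
        exact_mod_cast h6
      have h6 : M * ε ≤ δ / 2 := by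
        rw [hε]
        have h7 : (M : ℝ) * (δ / (2 * (M + 1))) = δ / 2 * (M / (M + 1)) := by field_simp
        have h8 : (M : ℝ) / (M + 1) ≤ 1 := by rw [div_le_one hM]; linarith
        rw [h7]
        nlinarith
      linarith
    refine ⟨Finset.univ.erase k, fun j hj => hk j (Finset.ne_of_mem_erase hj), ε, 2 / δ,
      fun l z => if l = k then (F k z)⁻¹ else 0, hε0, fun l => ?_, fun z hz _ hsm => ⟨fun l => ?_,
        ?_⟩⟩
    · by_cases hl : l = k
      · simp only [hl, if_true]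
        refine ((hF k).1.mono fun z hz => hz.1).inv fun z hz => ?_
        have h3 := hlowk z hz.1 hz.2.2
        intro h0
        rw [h0, norm_zero] at h3
        linarith
      · simp only [hl, if_false]
        exact differentiableOn_const _
    · have h3 := hlowk z hz hsm
      dsimp only
      split_ifs
      · rw [norm_inv]
        calc ‖F k z‖⁻¹ ≤ (δ / 2)⁻¹ := inv_anti₀ (by positivity) h3
          _ = 2 / δ := by rw [inv_div]
      · rw [norm_zero]; positivity
    · have h3 := hlowk z hz hsm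
      have h4 : (Finset.univ.erase k : Finset (Fin M))ᶜ = {k} := by
        ext j; simp
      rw [h4, Finset.sum_singleton]
      show F k z * (if k = k then (F k z)⁻¹ else 0) = 1
      rw [if_pos rfl, mul_inv_cancel₀]
      intro h0
      rw [h0, norm_zero] at h3
      linarith
  · intro ω b hω
    exact Pool.Agent.N290.RM.Tr3.partD hd (Pool.Agent.N290.RM.e_SDV d) ω b hω

end Pool.Agent.N290.Old.VanishingAreaIntegral
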